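import Mathlib

/-!
[CF TB1] The trace of an idempotent matrix over `ℤ / p^N`.
-/

set_option autoImplicit false

open Matrix

namespace Pool.Agent.LibCF91

theorem isLocal_zmod (p N : ℕ) (hp : p.Prime) (hN : N ≠ 0) : IsLocalRing (ZMod (p ^ N)) := by
  have : Fact p.Prime := ⟨hp⟩
  have h1 : Nontrivial (ZMod (p ^ N)) := by
    have : Fact (1 < p ^ N) := ⟨Nat.one_lt_pow hN hp.one_lt⟩
    infer_instance
  refine IsLocalRing.of_nonunits_add ?_
  intro a b ha hb
  rw [mem_nonunits_iff] at ha hb ⊢
  have key : ∀ c : ZMod (p ^ N), ¬ IsUnit c ↔ (p : ZMod (p ^ N)) ∣ c := by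
    intro c
    constructor
    · intro hc
      have : NeZero (p ^ N) := ⟨pow_ne_zero _ hp.ne_zero⟩
      obtain ⟨k, rfl⟩ : ∃ k : ℕ, (k : ZMod (p ^ N)) = c := ⟨c.val, ZMod.natCast_zmod_val c⟩
      have h2 : ¬ Nat.Coprime k (p ^ N) := fun h => hc ((ZMod.isUnit_iff_coprime k _).2 h)
      have h3 : p ∣ k := by
        by_contra h
        exact h2 (Nat.Coprime.pow_right _ ((Nat.Prime.coprime_iff_not_dvd hp).2 h).symm)
      obtain ⟨l, rfl⟩ := h3
      exact ⟨(l : ZMod (p ^ N)), by push_cast; ring⟩
    · rintro ⟨d, rfl⟩ hc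
      have h2 : IsUnit (p : ZMod (p ^ N)) := isUnit_of_mul_isUnit_left hc
      have h3 := (ZMod.isUnit_iff_coprime p (p ^ N)).1 h2
      rw [Nat.coprime_pow_right_iff (by omega), Nat.coprime_self] at h3
      exact hp.one_lt.ne' h3
  rw [key] at ha hb ⊢
  exact dvd_add ha hb

theorem trace_idem {R : Type} [CommRing R] [IsLocalRing R] (n : ℕ) (T : Matrix (Fin n) (Fin n) R)
    (hT : T * T = T) : ∃ ρ : ℕ, ρ ≤ n ∧ T.trace = ρ ∧ (ρ = 0 → T = 0) := by
  set f : (Fin n → R) →ₗ[R] (Fin n → R) := Matrix.toLin' T with hf
  have hidem : IsIdempotentElem f := by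
    rw [IsIdempotentElem, hf, Module.End.mul_eq_comp, ← Matrix.toLin'_mul, hT]
  have hproj : LinearMap.IsProj (LinearMap.range f) f :=
    LinearMap.IsIdempotentElem.isProj_range f hidem
  have p1 : Module.Projective R (LinearMap.range f) := by
    refine Module.Projective.of_split (LinearMap.range f).subtype
      (LinearMap.rangeRestrict f) ?_
    ext v
    obtain ⟨v, w, rfl⟩ := v
    simp only [LinearMap.comp_apply, Submodule.subtype_apply, LinearMap.id_apply]
    have h1 : f (f w) = f w := DFunLike.congr_fun hidem w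
    rw [LinearMap.codRestrict_apply, h1]
  have p2 : Module.Projective R (LinearMap.ker f) := by
    have hidem' : IsIdempotentElem (1 - f) := hidem.one_sub
    refine Module.Projective.of_split (LinearMap.ker f).subtype
      (LinearMap.codRestrict (LinearMap.ker f) (1 - f) ?_) ?_
    · intro w
      have h1 : f (f w) = f w := DFunLike.congr_fun hidem w
      rw [LinearMap.mem_ker, LinearMap.sub_apply, Module.End.one_apply, map_sub, h1, sub_self]
    · ext v
      obtain ⟨v, hv⟩ := v
      rw [LinearMap.mem_ker] at hv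
      simp [hv]
  have q1 : Module.Finite R (LinearMap.range f) := Module.Finite.range f
  have q2 : Module.Finite R (LinearMap.ker f) := by
    have : LinearMap.ker f = LinearMap.range (1 - f) := by
      ext v
      constructor
      · intro hv
        rw [LinearMap.mem_ker] at hv
        exact ⟨v, by simp [hv]⟩
      · rintro ⟨w, rfl⟩
        have h1 : f (f w) = f w := DFunLike.congr_fun hidem w
        rw [LinearMap.mem_ker, LinearMap.sub_apply, Module.End.one_apply, map_sub, h1, sub_self]
    rw [this]
    exact Module.Finite.range _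
  have r1 : Module.Free R (LinearMap.range f) := Module.free_of_flat_of_isLocalRing
  have r2 : Module.Free R (LinearMap.ker f) := Module.free_of_flat_of_isLocalRing
  refine ⟨Module.finrank R (LinearMap.range f), ?_, ?_, ?_⟩
  · have := LinearMap.finrank_range_le f
    simpa using this
  · have h1 := hproj.trace
    rw [hf, Matrix.trace_toLin'_eq] at h1
    exact h1
  · intro h0
    have h1 : Subsingleton (LinearMap.range f) := (Module.finrank_eq_zero_iff_of_free R _).1 h0
    have h2 : LinearMap.range f = ⊥ := (Submodule.subsingleton_iff_eq_bot).1 h1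
    have h3 : f = 0 := LinearMap.range_eq_bot.1 h2
    rw [hf] at h3
    exact (Matrix.toLin').injective (by rw [h3, map_zero])

end Pool.Agent.LibCF91
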