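import Pool.Agent.LibCF91.TB1

/-!
[CF TB2] `P ^ (e N)` does not divide the different, if `P^e` is the exact power in `p` and `n < p^N`.
-/

set_option autoImplicit false

open Matrix NumberField

namespace Pool.Agent.LibCF91

/-- The trace of an element that is idempotent modulo `p^N`. -/
theorem trace_mod (K : Type) [Field K] [NumberField K] (p N : ℕ) (hp : p.Prime) (hN : N ≠ 0)
    (x : 𝓞 K) (hx : ((p ^ N : ℕ) : 𝓞 K) ∣ x * x - x) :
    ∃ ρ : ℕ, ρ ≤ Module.finrank ℚ K ∧ ((p ^ N : ℕ) : ℤ) ∣ Algebra.trace ℤ (𝓞 K) x - ρ ∧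
      (ρ = 0 → ((p ^ N : ℕ) : 𝓞 K) ∣ x) := by
  have hloc := isLocal_zmod p N hp hN
  obtain ⟨n, hn⟩ : ∃ n, n = Module.finrank ℤ (𝓞 K) := ⟨_, rfl⟩
  have hn2 : n = Module.finrank ℚ K := by rw [hn, RingOfIntegers.rank]
  obtain ⟨b⟩ : Nonempty (Module.Basis (Fin n) ℤ (𝓞 K)) := ⟨Module.finBasisOfFinrankEq ℤ (𝓞 K) hn.symm⟩
  set φ : ℤ →+* ZMod (p ^ N) := Int.castRingHom (ZMod (p ^ N)) with hφ
  have hφ0 : ∀ m : ℤ, φ m = 0 ↔ ((p ^ N : ℕ) : ℤ) ∣ m := by
    intro m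
    rw [hφ, eq_intCast, ZMod.intCast_zmod_eq_zero_iff_dvd]
  set T : Matrix (Fin n) (Fin n) ℤ := Algebra.leftMulMatrix b x with hT
  have hmap : ∀ (y : 𝓞 K), ((p ^ N : ℕ) : 𝓞 K) ∣ y →
      (Algebra.leftMulMatrix b y).map φ = 0 := by
    rintro y ⟨z, rfl⟩
    ext i j
    rw [Matrix.map_apply, Matrix.zero_apply, hφ0, Algebra.leftMulMatrix_eq_repr_mul]
    have h1 : ((p ^ N : ℕ) : 𝓞 K) * z * b j = ((p ^ N : ℕ) : ℤ) • (z * b j) := by
      rw [zsmul_eq_mul, mul_assoc]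
      push_cast
      ring
    rw [h1, map_smul]
    exact ⟨b.repr (z * b j) i, by simp⟩
  have hidem : T.map φ * T.map φ = T.map φ := by
    have h1 := hmap _ hx
    rw [map_sub, map_mul, ← hT] at h1
    rw [← sub_eq_zero, ← h1]
    ext i j
    simp only [Matrix.sub_apply, Matrix.map_apply, map_sub, Matrix.mul_apply, map_sum, map_mul]
  obtain ⟨ρ, h1, h2, h3⟩ := trace_idem n (T.map φ) hidem
  refine ⟨ρ, by omega, ?_, ?_⟩
  · rw [← hφ0, map_sub, Algebra.trace_eq_matrix_trace b, ← hT]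
    have h4 : φ T.trace = (T.map φ).trace := by
      rw [Matrix.trace, Matrix.trace, map_sum]
      rfl
    rw [h4, h2, sub_eq_zero, hφ]
    simp
  · intro h0
    have h4 := h3 h0
    have h5 : ∀ j, ((p ^ N : ℕ) : 𝓞 K) ∣ x * b j := by
      intro j
      rw [← b.sum_repr (x * b j)]
      refine Finset.dvd_sum fun i _ => ?_
      have h6 : ((p ^ N : ℕ) : ℤ) ∣ b.repr (x * b j) i := by
        rw [← hφ0, ← Algebra.leftMulMatrix_eq_repr_mul, ← hT]
        have := congrFun (congrFun h4 i) j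
        rwa [Matrix.map_apply, Matrix.zero_apply] at this
      obtain ⟨c, hc⟩ := h6
      rw [hc]
      exact ⟨c • b i, by rw [zsmul_eq_mul, zsmul_eq_mul]; push_cast; ring⟩
    have h6 : x = ∑ j, b.repr 1 j • (x * b j) := by
      have h7 : (1 : 𝓞 K) = ∑ j, b.repr 1 j • b j := (b.sum_repr 1).symm
      calc x = x * 1 := (mul_one x).symm
        _ = x * ∑ j, b.repr 1 j • b j := by rw [← h7]
        _ = _ := by
            rw [Finset.mul_sum]
            refine Finset.sum_congr rfl fun j _ => ?_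
            rw [mul_smul_comm]
    rw [h6]
    refine Finset.dvd_sum fun j _ => ?_
    rw [zsmul_eq_mul]
    exact Dvd.dvd.mul_left (h5 j) _

theorem hmul_aux (K : Type) [Field K] [NumberField K] (p N : ℕ) (P Q : Ideal (𝓞 K)) (e : ℕ)
    (hPQ : P ^ e * Q = Ideal.span {(p : 𝓞 K)}) :
    P ^ (e * N) * Q ^ N = Ideal.span {((p ^ N : ℕ) : 𝓞 K)} := by
  rw [pow_mul, ← mul_pow, hPQ, Ideal.span_singleton_pow, Nat.cast_pow]

theorem map_aux (K : Type) [Field K] [NumberField K] (m : ℕ) :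
    Ideal.map (algebraMap ℤ (𝓞 K)) (Ideal.span {(m : ℤ)}) = Ideal.span {(m : 𝓞 K)} := by
  rw [Ideal.map_span, Set.image_singleton, map_natCast]

theorem mathlib_aux (K : Type) [Field K] [NumberField K] (m : ℕ) (P Q : Ideal (𝓞 K))
    (hP : P * Q = Ideal.span {(m : 𝓞 K)}) (x : 𝓞 K) (hxQ : x ∈ Q)
    (hx : ¬ (m : ℤ) ∣ Algebra.trace ℤ (𝓞 K) x) : ¬ P ∣ differentIdeal ℤ (𝓞 K) := by
  refine not_dvd_differentIdeal_of_intTrace_not_mem ℤ (p := Ideal.span {(m : ℤ)}) P Q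
    (by rw [hP, map_aux]) x hxQ ?_
  rw [Algebra.intTrace_eq_trace, Ideal.mem_span_singleton]
  exact hx

theorem not_dvd (K : Type) [Field K] [NumberField K] (p N : ℕ) (hp : p.Prime) (hN : N ≠ 0)
    (hnN : Module.finrank ℚ K < p ^ N) (P Q : Ideal (𝓞 K)) (hP : P ≠ ⊤) (e : ℕ) (he : e ≠ 0)
    (hPQ : P ^ e * Q = Ideal.span {(p : 𝓞 K)}) (hcop : IsCoprime P Q) :
    ¬ P ^ (e * N) ∣ differentIdeal ℤ (𝓞 K) := by
  have hcop2 : IsCoprime (P ^ (e * N)) (Q ^ N) := (hcop.pow_left).pow_right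
  have hmul := hmul_aux K p N P Q e hPQ
  obtain ⟨i, hi, j, hj, hij⟩ := (Ideal.isCoprime_iff_exists).1 hcop2
  have hji : j * j - j = ((-j) * i) := by
    have : i = 1 - j := by rw [← hij]; ring
    rw [this]; ring
  have hd : ((p ^ N : ℕ) : 𝓞 K) ∣ j * j - j := by
    have h1 : j * j - j ∈ P ^ (e * N) * Q ^ N := by
      rw [hji, mul_comm (-j) i]
      exact Ideal.mul_mem_mul hi (neg_mem hj)
    rw [hmul, Ideal.mem_span_singleton] at h1
    exact h1
  obtain ⟨ρ, h1, h2, h3⟩ := trace_mod K p N hp hN j hd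
  refine mathlib_aux K (p ^ N) _ _ hmul j hj ?_
  intro h4
  have h5 : ((p ^ N : ℕ) : ℤ) ∣ (ρ : ℤ) := by
    have := dvd_sub h4 h2
    rwa [sub_sub_cancel] at this
  have h6 : p ^ N ∣ ρ := by exact_mod_cast h5
  have h7 : ρ = 0 := by
    by_contra h
    have := Nat.le_of_dvd (Nat.pos_of_ne_zero h) h6
    omega
  have h8 := h3 h7
  apply hP
  rw [Ideal.eq_top_iff_one, ← hij]
  have hle : P ^ (e * N) ≤ P := Ideal.pow_le_self (mul_ne_zero he hN)
  refine add_mem (hle hi) ?_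
  have h9 : j ∈ P ^ (e * N) * Q ^ N := by
    rw [hmul, Ideal.mem_span_singleton]
    exact h8
  exact hle (Ideal.mul_le_left h9)

end Pool.Agent.LibCF91
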