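import Pool.Agent.LibCF91.TB2

/-!
[CF TB3] The exponent of a prime in the discriminant.
-/

set_option autoImplicit false

open NumberField

namespace Pool.Agent.LibCF91

theorem not_dvd_absNorm (K : Type) [Field K] [NumberField K] (p : ℕ) (hp : p.Prime)
    (I : Ideal (𝓞 K)) (hI : I ≠ ⊥) (h : I ⊔ Ideal.span {(p : 𝓞 K)} = ⊤) :
    ¬ p ∣ Ideal.absNorm I := by
  intro hdvd
  have : Fact p.Prime := ⟨hp⟩
  have hfin : Finite (𝓞 K ⧸ I) := (Ideal.absNorm_ne_zero_iff I).1 (by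
    rwa [Ne, Ideal.absNorm_eq_zero_iff])
  have hft : Fintype (𝓞 K ⧸ I) := Fintype.ofFinite _
  have hcard : Ideal.absNorm I = Fintype.card (𝓞 K ⧸ I) := by
    rw [Ideal.absNorm_apply, Submodule.cardQuot_apply, Nat.card_eq_fintype_card]
  rw [hcard] at hdvd
  obtain ⟨x, hx⟩ := exists_prime_addOrderOf_dvd_card p hdvd
  have hpx : (p : 𝓞 K ⧸ I) * x = 0 := by
    rw [← nsmul_eq_mul, ← hx]
    exact addOrderOf_nsmul_eq_zero x
  rw [Ideal.eq_top_iff_one, Submodule.mem_sup] at h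
  obtain ⟨a, ha, b, hb, hab⟩ := h
  rw [Ideal.mem_span_singleton] at hb
  obtain ⟨c, rfl⟩ := hb
  have h1 : (Ideal.Quotient.mk I) (a + p * c) = 1 := by rw [hab, map_one]
  rw [map_add, (Ideal.Quotient.eq_zero_iff_mem).2 ha, zero_add, map_mul, map_natCast] at h1
  have h2 : x = 0 := by
    calc x = 1 * x := (one_mul x).symm
      _ = (p : 𝓞 K ⧸ I) * (Ideal.Quotient.mk I) c * x := by rw [h1]
      _ = (Ideal.Quotient.mk I) c * ((p : 𝓞 K ⧸ I) * x) := by ring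
      _ = 0 := by rw [hpx, mul_zero]
  rw [h2, addOrderOf_zero] at hx
  exact hp.one_lt.ne' hx.symm

theorem small_quotient (K : Type) [Field K] [NumberField K] (p : ℕ) (hp : p.Prime)
    (S : Ideal (𝓞 K)) (hcard : Ideal.absNorm S = p) (θ : 𝓞 K) : ∃ a : ℤ, θ - a ∈ S := by
  have hS0 : S ≠ ⊥ := by
    intro h
    rw [h, Ideal.absNorm_bot] at hcard
    exact hp.ne_zero hcard.symm
  have hS1 : S ≠ ⊤ := by
    intro h
    rw [h, Ideal.absNorm_top] at hcard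
    exact hp.one_lt.ne hcard
  have : Fact p.Prime := ⟨hp⟩
  have hfin : Finite (𝓞 K ⧸ S) := (Ideal.absNorm_ne_zero_iff S).1 (by
    rwa [Ne, Ideal.absNorm_eq_zero_iff])
  have hc : Nat.card (𝓞 K ⧸ S) = p := by
    rw [← hcard, Ideal.absNorm_apply, Submodule.cardQuot_apply]
  have h1 : (1 : 𝓞 K ⧸ S) ≠ 0 := by
    intro h
    apply hS1
    rw [Ideal.eq_top_iff_one, ← Ideal.Quotient.eq_zero_iff_mem, map_one]
    exact h
  have h2 : (AddSubgroup.zmultiples (1 : 𝓞 K ⧸ S)) = ⊤ :=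
    zmultiples_eq_top_of_prime_card hc h1
  have h3 : (Ideal.Quotient.mk S θ) ∈ AddSubgroup.zmultiples (1 : 𝓞 K ⧸ S) := by
    rw [h2]; trivial
  obtain ⟨a, ha⟩ := AddSubgroup.mem_zmultiples_iff.1 h3
  refine ⟨a, ?_⟩
  rw [← Ideal.Quotient.eq_zero_iff_mem, map_sub, map_intCast, ← ha]
  simp

theorem exact_power (K : Type) [Field K] [NumberField K] (p : ℕ) (hp : p.Prime)
    (P : Ideal (𝓞 K)) (hP : P.IsPrime) (hpP : (p : 𝓞 K) ∈ P) :
    ∃ (e : ℕ) (Q : Ideal (𝓞 K)), e ≠ 0 ∧ P ^ e * Q = Ideal.span {(p : 𝓞 K)} ∧ IsCoprime P Q := by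
  have hp0 : (p : 𝓞 K) ≠ 0 := by exact_mod_cast hp.ne_zero
  have hI : Ideal.span {(p : 𝓞 K)} ≠ ⊥ := by rwa [Ne, Ideal.span_singleton_eq_bot]
  have hP0 : P ≠ ⊥ := by
    rintro rfl
    exact hp0 (by simpa using hpP)
  have hmax : P.IsMaximal := hP.isMaximal hP0
  obtain ⟨Q, h1, h2⟩ := Ideal.eq_prime_pow_mul_coprime hI P
  refine ⟨_, Q, ?_, h2.symm, Ideal.isCoprime_iff_sup_eq.2 h1⟩
  intro h0
  rw [h0, pow_zero, one_mul] at h2
  have h3 : Q ≤ P := by rw [← h2, Ideal.span_singleton_le_iff_mem]; exact hpP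
  rw [sup_eq_left.2 h3] at h1
  exact hP.ne_top h1

theorem discr_exponent (K : Type) [Field K] [NumberField K] (p N : ℕ) (hp : p.Prime) (hN : N ≠ 0)
    (hnN : Module.finrank ℚ K < p ^ N) :
    ∃ g s u : ℕ, g + s = N * Module.finrank ℚ K ∧ 1 ≤ s ∧ (discr K).natAbs = p ^ g * u ∧ ¬ p ∣ u ∧
      (s = 1 → ∀ θ : 𝓞 K, ∃ (a : ℤ) (k : ℕ), (p : 𝓞 K) ∣ (θ - a) ^ k) := by
  obtain ⟨D, hD⟩ : ∃ D, D = differentIdeal ℤ (𝓞 K) := ⟨_, rfl⟩
  obtain ⟨Z, hZ⟩ : ∃ Z, Z = Ideal.span {((p ^ N : ℕ) : 𝓞 K)} := ⟨_, rfl⟩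
  have hp0 : (p : 𝓞 K) ≠ 0 := by exact_mod_cast hp.ne_zero
  have hZ0 : Z ≠ ⊥ := by
    rw [hZ, Ne, Ideal.span_singleton_eq_bot, Nat.cast_pow]
    exact pow_ne_zero _ hp0
  have hD0 : D ≠ ⊥ := by
    intro h
    have h1 := absNorm_differentIdeal K (𝓞 K)
    rw [← hD, h, Ideal.absNorm_bot] at h1
    exact discr_ne_zero K (Int.natAbs_eq_zero.1 h1.symm)
  obtain ⟨G, hG⟩ : ∃ G, G = D ⊔ Z := ⟨_, rfl⟩
  have hGD : G ∣ D := by rw [Ideal.dvd_iff_le, hG]; exact le_sup_left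
  have hGZ : G ∣ Z := by rw [Ideal.dvd_iff_le, hG]; exact le_sup_right
  obtain ⟨S, hS⟩ := hGZ
  obtain ⟨D', hD'⟩ := hGD
  have hG0 : G ≠ ⊥ := by
    intro h
    rw [h, Ideal.bot_mul] at hS
    exact hZ0 hS
  have hS0 : S ≠ ⊥ := by
    intro h
    rw [h, Ideal.mul_bot] at hS
    exact hZ0 hS
  have hD'0 : D' ≠ ⊥ := by
    intro h
    rw [h, Ideal.mul_bot] at hD'
    exact hD0 hD'
  -- every prime above `p` divides `S`
  have claim1 : ∀ P : Ideal (𝓞 K), P.IsPrime → (p : 𝓞 K) ∈ P → S ≤ P := by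
    intro P hP hpP
    by_contra hcon
    have hP0 : P ≠ ⊥ := by
      rintro rfl
      exact hp0 (by simpa using hpP)
    obtain ⟨e, Q, he, hPQ, hcop⟩ := exact_power K p hp P hP hpP
    have h1 := not_dvd K p N hp hN hnN P Q hP.ne_top e he hPQ hcop
    apply h1
    rw [← hD, hD']
    refine Dvd.dvd.mul_right ?_ _
    have hmax : P.IsMaximal := hP.isMaximal hP0
    have h2 : IsCoprime P S := by
      rw [Ideal.isCoprime_iff_sup_eq]
      refine hmax.1.2 _ ?_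
      rw [left_lt_sup]
      exact hcon
    have h3 : P ^ (e * N) ∣ S * G := by
      rw [mul_comm S G, ← hS, hZ, ← hmul_aux K p N P Q e hPQ]
      exact dvd_mul_right _ _
    exact h2.pow_left.dvd_of_dvd_mul_left h3
  -- the rest of the different is prime to `p`
  have claim2 : ¬ p ∣ Ideal.absNorm D' := by
    refine not_dvd_absNorm K p hp D' hD'0 ?_
    by_contra hcon
    obtain ⟨P, hPm, hP⟩ := Ideal.exists_le_maximal _ hcon
    have hpP : (p : 𝓞 K) ∈ P := hP (Ideal.mem_sup_right (Ideal.mem_span_singleton_self _))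
    have hDP : D' ≤ P := le_sup_left.trans hP
    have hSP := claim1 P hPm.isPrime hpP
    obtain ⟨D1, hD1⟩ := Ideal.dvd_iff_le.2 hDP
    obtain ⟨S1, hS1⟩ := Ideal.dvd_iff_le.2 hSP
    have h1 : D ≤ G * P := by
      rw [← Ideal.dvd_iff_le, hD', hD1, ← mul_assoc]
      exact dvd_mul_right _ _
    have h2 : Z ≤ G * P := by
      rw [← Ideal.dvd_iff_le, hS, hS1, ← mul_assoc]
      exact dvd_mul_right _ _
    have h3 : G ≤ G * P := by
      conv_lhs => rw [hG]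
      exact sup_le h1 h2
    have h4 : G * P ∣ G * 1 := by
      rw [mul_one, Ideal.dvd_iff_le]
      exact h3
    have h5 : P ∣ 1 := (mul_dvd_mul_iff_left (by rwa [Ne, Ideal.zero_eq_bot])).1 h4
    rw [Ideal.dvd_iff_le, Ideal.one_eq_top, top_le_iff] at h5
    exact hPm.ne_top h5
  -- the norms
  have hnorm : Ideal.absNorm G * Ideal.absNorm S = p ^ (N * Module.finrank ℚ K) := by
    rw [← map_mul, ← hS, hZ, Ideal.absNorm_span_natCast, RingOfIntegers.rank, ← pow_mul]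
  obtain ⟨g, hg1, hg⟩ := (Nat.dvd_prime_pow hp).1 (Dvd.intro _ hnorm)
  obtain ⟨s, hs1, hs⟩ := (Nat.dvd_prime_pow hp).1 (Dvd.intro_left _ hnorm)
  rw [hg, hs, ← pow_add] at hnorm
  have hgs : g + s = N * Module.finrank ℚ K := Nat.pow_right_injective hp.two_le hnorm
  have hS1 : S ≠ ⊤ := by
    intro h
    -- a prime above `p`
    have h1 : Ideal.span {(p : 𝓞 K)} ≠ ⊤ := by
      intro h2
      have h3 := congrArg Ideal.absNorm h2
      rw [Ideal.absNorm_span_natCast, Ideal.absNorm_top, RingOfIntegers.rank] at h3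
      have h4 : Module.finrank ℚ K ≠ 0 := Module.finrank_pos.ne'
      exact (Nat.one_lt_pow h4 hp.one_lt).ne' h3
    obtain ⟨P, hPm, hP⟩ := Ideal.exists_le_maximal _ h1
    have h2 := claim1 P hPm.isPrime (hP (Ideal.mem_span_singleton_self _))
    rw [h, top_le_iff] at h2
    exact hPm.ne_top h2
  refine ⟨g, s, Ideal.absNorm D', hgs, ?_, ?_, claim2, ?_⟩
  · rw [Nat.one_le_iff_ne_zero]
    rintro rfl
    rw [pow_zero, Ideal.absNorm_eq_one_iff] at hs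
    exact hS1 hs
  · rw [← absNorm_differentIdeal K (𝓞 K), ← hD, hD', map_mul, hg]
  · intro hs2 θ
    rw [hs2, pow_one] at hs
    obtain ⟨a, ha⟩ := small_quotient K p hp S hs θ
    refine ⟨a, ?_⟩
    have h1 : θ - a ∈ (Ideal.span {(p : 𝓞 K)}).radical := by
      rw [Ideal.radical_eq_sInf, Submodule.mem_sInf]
      rintro P ⟨hP1, hP2⟩
      exact claim1 P hP2 (hP1 (Ideal.mem_span_singleton_self _)) ha
    obtain ⟨k, hk⟩ := Ideal.mem_radical_iff.1 h1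
    exact ⟨k, Ideal.mem_span_singleton.1 hk⟩

end Pool.Agent.LibCF91
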