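import Pool.Agent.LibCF91.TB3
import Pool.Agent.LibRC21A.B2

/-!
[CF TB4] The exponent of a prime `p ≥ 5` in the discriminant of the quartic field.
-/

set_option autoImplicit false

open NumberField Polynomial

namespace Pool.Agent.LibCF91

theorem nil_trace (K : Type) [Field K] [NumberField K] (p : ℕ) (hp : p.Prime) (z : 𝓞 K) (k : ℕ)
    (hz : (p : 𝓞 K) ∣ z ^ k) : (p : ℤ) ∣ Algebra.trace ℤ (𝓞 K) z := by
  have : Fact p.Prime := ⟨hp⟩
  obtain ⟨n, hn⟩ : ∃ n, n = Module.finrank ℤ (𝓞 K) := ⟨_, rfl⟩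
  obtain ⟨b⟩ : Nonempty (Module.Basis (Fin n) ℤ (𝓞 K)) := ⟨Module.finBasisOfFinrankEq ℤ (𝓞 K) hn.symm⟩
  set φ : ℤ →+* ZMod p := Int.castRingHom (ZMod p) with hφ
  have hφ0 : ∀ m : ℤ, φ m = 0 ↔ (p : ℤ) ∣ m := by
    intro m
    rw [hφ, eq_intCast, ZMod.intCast_zmod_eq_zero_iff_dvd]
  set T : Matrix (Fin n) (Fin n) ℤ := Algebra.leftMulMatrix b z with hT
  have hmap : ∀ (y : 𝓞 K), (p : 𝓞 K) ∣ y → (Algebra.leftMulMatrix b y).map φ = 0 := by
    rintro y ⟨z, rfl⟩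
    ext i j
    rw [Matrix.map_apply, Matrix.zero_apply, hφ0, Algebra.leftMulMatrix_eq_repr_mul]
    have h1 : (p : 𝓞 K) * z * b j = (p : ℤ) • (z * b j) := by
      rw [zsmul_eq_mul, mul_assoc]
      push_cast
      ring
    rw [h1, map_smul]
    exact ⟨b.repr (z * b j) i, by simp⟩
  have hnil : (φ.mapMatrix T) ^ k = 0 := by
    rw [← map_pow, hT, ← map_pow]
    exact hmap _ hz
  have h1 : IsNilpotent (φ.mapMatrix T).trace := Matrix.isNilpotent_trace_of_isNilpotent ⟨k, hnil⟩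
  have h2 : φ T.trace = (φ.mapMatrix T).trace := by
    rw [Matrix.trace, Matrix.trace, map_sum]
    rfl
  rw [← h2, isNilpotent_iff_eq_zero, hφ0, hT, ← Algebra.trace_eq_matrix_trace b] at h1
  exact h1

/-- The roots of the quartic. -/
theorem quart_roots (K : Type) [Field K] [NumberField K] (A x y : ℤ)
    (hirr : Irreducible ((SQ55.gq A x y).map (algebraMap ℤ ℚ)))
    (hd : Module.finrank ℚ K = 4) (θ : K) (hθ : aeval θ (SQ55.gq A x y) = 0) :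
    ∃ e : Fin 4 ≃ (K →+* ℂ),
      e 0 θ + e 1 θ + e 2 θ + e 3 θ = 0 ∧
      (e 0 θ) ^ 2 + (e 1 θ) ^ 2 + (e 2 θ) ^ 2 + (e 3 θ) ^ 2 = 12 * x ∧
      (e 0 θ) ^ 3 + (e 1 θ) ^ 3 + (e 2 θ) ^ 3 + (e 3 θ) ^ 3 = 24 * y ∧
      (e 0 θ) ^ 4 + (e 1 θ) ^ 4 + (e 2 θ) ^ 4 + (e 3 θ) ^ 4 = 84 * x ^ 2 + 16 * A := by
  have hmon := SQ55.gq_monic A x y
  have hdegf := SQ55.gq_natDegree A x y
  have hθ' : θ ^ 4 - 6 * x * θ ^ 2 - 8 * y * θ - 3 * x ^ 2 - 4 * A = 0 := by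
    have h1 := hθ
    unfold SQ55.gq at h1
    rw [aeval_def] at h1
    simp only [eval₂_sub, eval₂_mul, eval₂_pow, eval₂_X, eval₂_C, algebraMap_int_eq] at h1
    simp only [eq_intCast] at h1
    push_cast at h1
    linear_combination h1
  have hmin : (minpoly ℚ θ).natDegree = Module.finrank ℚ K := by
    have h1 : aeval θ ((SQ55.gq A x y).map (algebraMap ℤ ℚ)) = 0 := by
      rw [aeval_map_algebraMap, hθ]
    rw [← minpoly.eq_of_irreducible_of_monic hirr h1 (hmon.map _), hmon.natDegree_map, hd, hdegf]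
  have hcard : Fintype.card (K →+* ℂ) = 4 := by rw [NumberField.Embeddings.card, hd]
  have e : Fin 4 ≃ (K →+* ℂ) := (Fintype.equivFinOfCardEq hcard).symm
  have hinj : Function.Injective (fun i => e i θ) := by
    set e' : Fin 4 ≃ (K →ₐ[ℚ] ℂ) := e.trans (RingHom.equivRatAlgHom K ℂ) with he'
    have htop := (Field.primitive_element_iff_minpoly_natDegree_eq ℚ θ).2 hmin
    have h := (Field.primitive_element_iff_algHom_eq_of_eval' ℚ ℂ
      (fun x => IsAlgClosed.splits _) θ).1 htop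
    intro i j hij
    exact e'.injective (h (by simpa [he'] using hij))
  have hnod := Pool.Agent.LibST91.map_eq_nodal 4 (SQ55.gq A x y) hmon hdegf (fun i => e i θ) hinj (by
    intro i
    rw [SQ55.gq_aeval]
    have h1 := congrArg (e i) hθ'
    simp only [map_add, map_sub, map_mul, map_pow, map_ofNat, map_intCast, map_zero] at h1
    exact h1)
  have hT : ∀ T : ℂ, T ^ 4 - (6 * x) * T ^ 2 - (8 * y) * T - (3 * x ^ 2 + 4 * A) =
      (T - e 0 θ) * (T - e 1 θ) * (T - e 2 θ) * (T - e 3 θ) := by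
    intro T
    have h1 := congrArg (eval T) hnod
    rw [Lagrange.eval_nodal, Fin.prod_univ_four, eval_map_algebraMap, SQ55.gq_aeval] at h1
    rw [← h1]
    ring
  obtain ⟨v1, v2, v3, v4⟩ := SQ55.vieta4 hT
  obtain ⟨t1, ht1⟩ : ∃ t, t = e 0 θ := ⟨_, rfl⟩
  obtain ⟨t2, ht2⟩ : ∃ t, t = e 1 θ := ⟨_, rfl⟩
  obtain ⟨t3, ht3⟩ : ∃ t, t = e 2 θ := ⟨_, rfl⟩
  obtain ⟨t4, ht4⟩ : ∃ t, t = e 3 θ := ⟨_, rfl⟩
  rw [← ht1, ← ht2, ← ht3, ← ht4] at v1 v2 v3 v4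
  refine ⟨e, ?_, ?_, ?_, ?_⟩ <;> rw [← ht1, ← ht2, ← ht3, ← ht4]
  · exact v1
  · linear_combination (t1 + t2 + t3 + t4) * v1 - 2 * v2
  · linear_combination ((t1 ^ 2 + t2 ^ 2 + t3 ^ 2 + t4 ^ 2) -
      (t1 * t2 + t1 * t3 + t1 * t4 + t2 * t3 + t2 * t4 + t3 * t4)) * v1 + 3 * v3
  · linear_combination ((t1 ^ 3 + t2 ^ 3 + t3 ^ 3 + t4 ^ 3) +
      (t1 * t2 * t3 + t1 * t2 * t4 + t1 * t3 * t4 + t2 * t3 * t4) +
      6 * x * (t1 + t2 + t3 + t4)) * v1 -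
      ((t1 ^ 2 + t2 ^ 2 + t3 ^ 2 + t4 ^ 2) + 12 * x) * v2 - 4 * v4

theorem trace_sum (K : Type) [Field K] [NumberField K] (e : Fin 4 ≃ (K →+* ℂ)) (z : 𝓞 K) :
    ((Algebra.trace ℤ (𝓞 K) z : ℤ) : ℂ) = e 0 z + e 1 z + e 2 z + e 3 z := by
  have h1 : ((Algebra.trace ℤ (𝓞 K) z : ℤ) : ℂ) = algebraMap ℚ ℂ (Algebra.trace ℚ K (z : K)) := by
    rw [← Algebra.coe_trace_int]
    simp
  rw [h1, trace_eq_sum_embeddings ℂ]
  set e' : Fin 4 ≃ (K →ₐ[ℚ] ℂ) := e.trans (RingHom.equivRatAlgHom K ℂ) with he'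
  rw [← e'.sum_comp, Fin.sum_univ_four]
  simp [he']

/-- The exponent of `p ≥ 5`. -/
theorem quart_exponent (K : Type) [Field K] [NumberField K] (A x y : ℤ) (p : ℕ) (hp : p.Prime)
    (hp5 : 5 ≤ p) (hirr : Irreducible ((SQ55.gq A x y).map (algebraMap ℤ ℚ)))
    (hd : Module.finrank ℚ K = 4) (θ : K) (hθ : aeval θ (SQ55.gq A x y) = 0) :
    ∃ g u : ℕ, (discr K).natAbs = p ^ g * u ∧ ¬ p ∣ u ∧ g ≤ 3 ∧
      (g = 3 → (p : ℤ) ∣ x ∧ (p : ℤ) ∣ y ∧ (p : ℤ) ∣ A) := by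
  obtain ⟨g, s, u, h1, h2, h3, h4, h5⟩ := discr_exponent K p 1 hp one_ne_zero (by
    rw [hd, pow_one]; omega)
  rw [hd] at h1
  refine ⟨g, u, h3, h4, by omega, fun hg => ?_⟩
  have hs : s = 1 := by omega
  have hint : IsIntegral ℤ θ := ⟨SQ55.gq A x y, SQ55.gq_monic A x y, by rw [← aeval_def]; exact hθ⟩
  obtain ⟨o, ho⟩ : ∃ o : 𝓞 K, (o : K) = θ := ⟨⟨θ, hint⟩, rfl⟩
  obtain ⟨a, k, hak⟩ := h5 hs o
  obtain ⟨e, e1, e2, e3, e4⟩ := quart_roots K A x y hirr hd θ hθ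
  have hpZ : Prime (p : ℤ) := Nat.prime_iff_prime_int.1 hp
  -- a large exponent
  have t1 : Algebra.trace ℤ (𝓞 K) o = 0 := by
    have h := trace_sum K e o
    rw [ho, e1] at h
    exact_mod_cast h
  have t2 : Algebra.trace ℤ (𝓞 K) (o ^ 2) = 12 * x := by
    have h := trace_sum K e (o ^ 2)
    simp only [map_pow, ho] at h
    rw [e2] at h
    exact_mod_cast h
  have t3 : Algebra.trace ℤ (𝓞 K) (o ^ 3) = 24 * y := by
    have h := trace_sum K e (o ^ 3)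
    simp only [map_pow, ho] at h
    rw [e3] at h
    exact_mod_cast h
  have t4 : Algebra.trace ℤ (𝓞 K) (o ^ 4) = 84 * x ^ 2 + 16 * A := by
    have h := trace_sum K e (o ^ 4)
    simp only [map_pow, ho] at h
    rw [e4] at h
    exact_mod_cast h
  have ndvd : ∀ n : ℕ, n ≠ 0 → (∀ q : ℕ, q.Prime → q ∣ n → q < 5) → ¬ (p : ℤ) ∣ (n : ℤ) := by
    intro n hn hq h
    have h1 : p ∣ n := by exact_mod_cast h
    have := hq p hp h1
    omega
  have n2 : ∀ n : ℕ, 2 ^ n ≠ 0 → ¬ (p : ℤ) ∣ 2 ^ n := by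
    intro n _ h
    have h1 := hpZ.dvd_of_dvd_pow h
    have h2 : p ∣ 2 := by exact_mod_cast h1
    have := Nat.le_of_dvd (by norm_num) h2
    omega
  have n3 : ¬ (p : ℤ) ∣ 3 := by
    intro h
    have h2 : p ∣ 3 := by exact_mod_cast h
    have := Nat.le_of_dvd (by norm_num) h2
    omega
  -- `p ∣ a`
  have ha : (p : ℤ) ∣ a := by
    have h6 := nil_trace K p hp (o - a) k hak
    rw [map_sub, t1] at h6
    have h7 : Algebra.trace ℤ (𝓞 K) ((a : ℤ) : 𝓞 K) = 4 * a := by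
      have h8 := trace_sum K e ((a : ℤ) : 𝓞 K)
      simp only [map_intCast] at h8
      have h9 : ((Algebra.trace ℤ (𝓞 K) ((a : ℤ) : 𝓞 K) : ℤ) : ℂ) = ((4 * a : ℤ) : ℂ) := by
        rw [h8]; push_cast; ring
      exact_mod_cast h9
    rw [h7, zero_sub, dvd_neg] at h6
    rcases hpZ.dvd_or_dvd h6 with h | h
    · exact absurd h (n2 2 (by norm_num))
    · exact h
  have hok : (p : 𝓞 K) ∣ o ^ k := by
    obtain ⟨c, hc⟩ := ha
    have h6 : (p : 𝓞 K) ∣ (a : 𝓞 K) := ⟨(c : 𝓞 K), by rw [hc]; push_cast; ring⟩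
    have h7 : (p : 𝓞 K) ∣ o ^ k - (o - a) ^ k :=
      (by rw [sub_sub_cancel]; exact h6 : (p : 𝓞 K) ∣ o - (o - a)).trans (sub_dvd_pow_sub_pow _ _ k)
    have h8 := dvd_add h7 hak
    rwa [sub_add_cancel] at h8
  have hj : ∀ j : ℕ, j ≠ 0 → (p : ℤ) ∣ Algebra.trace ℤ (𝓞 K) (o ^ j) := by
    intro j hj
    refine nil_trace K p hp (o ^ j) k ?_
    rw [← pow_mul, mul_comm, pow_mul]
    exact dvd_pow hok hj
  have hx : (p : ℤ) ∣ x := by
    have h6 := hj 2 (by norm_num)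
    rw [t2, show (12 : ℤ) * x = 2 ^ 2 * (3 * x) by ring] at h6
    rcases hpZ.dvd_or_dvd h6 with h | h
    · exact absurd h (n2 2 (by norm_num))
    · rcases hpZ.dvd_or_dvd h with h | h
      · exact absurd h n3
      · exact h
  refine ⟨hx, ?_, ?_⟩
  · have h6 := hj 3 (by norm_num)
    rw [t3, show (24 : ℤ) * y = 2 ^ 3 * (3 * y) by ring] at h6
    rcases hpZ.dvd_or_dvd h6 with h | h
    · exact absurd h (n2 3 (by norm_num))
    · rcases hpZ.dvd_or_dvd h with h | h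
      · exact absurd h n3
      · exact h
  · have h6 := hj 4 (by norm_num)
    rw [t4] at h6
    have h7 : (p : ℤ) ∣ 84 * x ^ 2 := (dvd_pow hx (by norm_num)).mul_left _
    have h8 := (dvd_add_right h7).1 h6
    rw [show (16 : ℤ) * A = 2 ^ 4 * A by ring] at h8
    rcases hpZ.dvd_or_dvd h8 with h | h
    · exact absurd h (n2 4 (by norm_num))
    · exact h

/-- The exponents of `2` and `3`. -/
theorem quart_exponent_small (K : Type) [Field K] [NumberField K] (p N : ℕ) (hp : p.Prime)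
    (hN : N ≠ 0) (hpN : 4 < p ^ N) (hd : Module.finrank ℚ K = 4) :
    ∃ g u : ℕ, (discr K).natAbs = p ^ g * u ∧ ¬ p ∣ u ∧ g + 1 ≤ 4 * N := by
  obtain ⟨g, s, u, h1, h2, h3, h4, -⟩ := discr_exponent K p N hp hN (by rw [hd]; exact hpN)
  exact ⟨g, u, h3, h4, by rw [hd] at h1; omega⟩

end Pool.Agent.LibCF91
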