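import Pool.Agent.LibCF91.TB4

/-!
[CF TB5] The discriminant of the quartic field divides `2^11 3^7` times the conductor number.
-/

set_option autoImplicit false

open NumberField Polynomial

namespace Pool.Agent.LibCF91

theorem dvd_rad {p n : ℕ} (hp : p.Prime) (hn : n ≠ 0) (h : p ∣ n) : p ∣ ∏ q ∈ n.primeFactors, q :=
  Finset.dvd_prod_of_mem _ (Nat.mem_primeFactors.2 ⟨hp, h, hn⟩)

theorem singular_dvd {A B x y : ℤ} {p : ℕ} (hp : p.Prime) (hp5 : 5 ≤ p)
    (hE : y ^ 2 = x ^ 3 + A * x + B) (hD : (p : ℤ) ∣ 4 * A ^ 3 + 27 * B ^ 2) (hA : ¬ (p : ℤ) ∣ A)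
    (hs : (p : ℤ) ∣ 2 * A * x + 3 * B) : (p : ℤ) ∣ y ∧ (p : ℤ) ∣ 3 * x ^ 2 + A := by
  have hpZ : Prime (p : ℤ) := Nat.prime_iff_prime_int.1 hp
  have n2 : ¬ (p : ℤ) ∣ 2 := by
    intro h
    have h2 : p ∣ 2 := by exact_mod_cast h
    have := Nat.le_of_dvd (by norm_num) h2
    omega
  have h2A : ¬ (p : ℤ) ∣ 2 * A := fun h => (hpZ.dvd_or_dvd h).elim n2 hA
  constructor
  · have h1 : (p : ℤ) ∣ (2 * A) ^ 3 * y ^ 2 := by
      have : (2 * A) ^ 3 * y ^ 2 = (2 * A * x + 3 * B) *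
          ((2 * A * x) ^ 2 - (2 * A * x) * (3 * B) + 9 * B ^ 2 + 4 * A ^ 3) -
          B * (4 * A ^ 3 + 27 * B ^ 2) := by
        rw [hE]; ring
      rw [this]
      exact dvd_sub (hs.mul_right _) (hD.mul_left _)
    rcases hpZ.dvd_or_dvd h1 with h | h
    · exact absurd (hpZ.dvd_of_dvd_pow h) h2A
    · exact hpZ.dvd_of_dvd_pow h
  · have h1 : (p : ℤ) ∣ (2 * A) ^ 2 * (3 * x ^ 2 + A) := by
      have : (2 * A) ^ 2 * (3 * x ^ 2 + A) = (2 * A * x + 3 * B) * (3 * (2 * A * x - 3 * B)) +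
          (4 * A ^ 3 + 27 * B ^ 2) := by
        ring
      rw [this]
      exact dvd_add (hs.mul_right _) hD
    rcases hpZ.dvd_or_dvd h1 with h | h
    · exact absurd (hpZ.dvd_of_dvd_pow h) h2A
    · exact h

theorem gcd_ne {A B x y : ℤ} (hΔ : 4 * A ^ 3 + 27 * B ^ 2 ≠ 0) (hE : y ^ 2 = x ^ 3 + A * x + B) :
    Int.gcd A B ≠ 0 ∧ Int.gcd y (3 * x ^ 2 + A) ≠ 0 := by
  constructor
  · intro h
    rw [Int.gcd_eq_zero_iff] at h
    apply hΔ
    rw [h.1, h.2]
    norm_num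
  · intro h
    rw [Int.gcd_eq_zero_iff] at h
    obtain ⟨h1, h2⟩ := h
    apply hΔ
    have hA : A = -3 * x ^ 2 := by linarith
    have hB : B = 2 * x ^ 3 := by
      rw [h1, hA] at hE
      linarith
    rw [hA, hB]
    ring

/-- The exponent of a prime `p ≥ 5` in `discr K`. -/
theorem local_dvd (K : Type) [Field K] [NumberField K] (A B x y : ℤ) (p : ℕ) (hp : p.Prime)
    (hp5 : 5 ≤ p) (hΔ : 4 * A ^ 3 + 27 * B ^ 2 ≠ 0) (hE : y ^ 2 = x ^ 3 + A * x + B)
    (hirr : Irreducible ((SQ55.gq A x y).map (algebraMap ℤ ℚ)))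
    (hd : Module.finrank ℚ K = 4) (θ : K) (hθ : aeval θ (SQ55.gq A x y) = 0) :
    ∃ g u : ℕ, (discr K).natAbs = p ^ g * u ∧ ¬ p ∣ u ∧
      p ^ g ∣ (∏ q ∈ (4 * A ^ 3 + 27 * B ^ 2).natAbs.primeFactors, q) *
        (∏ q ∈ (Int.gcd A B).primeFactors, q) *
        (∏ q ∈ (Int.gcd y (3 * x ^ 2 + A)).primeFactors, q) := by
  have hpZ : Prime (p : ℤ) := Nat.prime_iff_prime_int.1 hp
  have n2 : ¬ (p : ℤ) ∣ 2 := by
    intro h
    have h2 : p ∣ 2 := by exact_mod_cast h
    have := Nat.le_of_dvd (by norm_num) h2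
    omega
  have n3 : ¬ (p : ℤ) ∣ 3 := by
    intro h
    have h2 : p ∣ 3 := by exact_mod_cast h
    have := Nat.le_of_dvd (by norm_num) h2
    omega
  obtain ⟨hg1, hg2⟩ := gcd_ne hΔ hE
  have hDn : (4 * A ^ 3 + 27 * B ^ 2).natAbs ≠ 0 := Int.natAbs_ne_zero.2 hΔ
  obtain ⟨g, u, h1, h2, h3, h4⟩ := quart_exponent K A x y p hp hp5 hirr hd θ hθ
  refine ⟨g, u, h1, h2, ?_⟩
  obtain ⟨z, hz⟩ := Pool.Agent.LibRC21.discr_quart_eq K A B x y 1 hE one_ne_zero (by simp)
    isCoprime_one_left hirr hd θ hθ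
  rw [one_pow, one_mul] at hz
  -- the divisibility of the curve discriminant
  have hR1 : g ≠ 0 → (p : ℤ) ∣ 4 * A ^ 3 + 27 * B ^ 2 := by
    intro hg
    have h5 : (p : ℤ) ∣ discr K := by
      rw [← Int.dvd_natAbs, h1]
      push_cast
      exact (dvd_pow_self _ hg).mul_right _
    have h6 : (p : ℤ) ∣ -(4096 * (4 * A ^ 3 + 27 * B ^ 2)) := by
      rw [hz]
      exact h5.mul_left _
    rw [dvd_neg, show (4096 : ℤ) = 2 ^ 12 by norm_num] at h6
    rcases hpZ.dvd_or_dvd h6 with h | h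
    · exact absurd (hpZ.dvd_of_dvd_pow h) n2
    · exact h
  have hR1' : g ≠ 0 → p ∣ ∏ q ∈ (4 * A ^ 3 + 27 * B ^ 2).natAbs.primeFactors, q := by
    intro hg
    exact dvd_rad hp hDn (Int.natCast_dvd.1 (hR1 hg))
  have hgcd : ∀ a b : ℤ, Int.gcd a b ≠ 0 → (p : ℤ) ∣ a → (p : ℤ) ∣ b →
      p ∣ ∏ q ∈ (Int.gcd a b).primeFactors, q := by
    intro a b h5 h6 h7
    refine dvd_rad hp h5 ?_
    have := Int.dvd_coe_gcd h6 h7
    exact_mod_cast this
  have hAB : (p : ℤ) ∣ 4 * A ^ 3 + 27 * B ^ 2 → (p : ℤ) ∣ A → (p : ℤ) ∣ B := by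
    intro h5 h6
    have h7 : (p : ℤ) ∣ 4 * A ^ 3 := (dvd_pow h6 (by norm_num)).mul_left _
    have h8 := (dvd_add_right h7).1 h5
    rw [show (27 : ℤ) = 3 ^ 3 by norm_num] at h8
    rcases hpZ.dvd_or_dvd h8 with h | h
    · exact absurd (hpZ.dvd_of_dvd_pow h) n3
    · exact hpZ.dvd_of_dvd_pow h
  rcases Nat.lt_or_ge g 2 with hg | hg
  · interval_cases g
    · simp
    · rw [pow_one]
      exact ((hR1' one_ne_zero).mul_right _).mul_right _
  · have hD := hR1 (by omega)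
    have hDr := hR1' (by omega)
    by_cases hg3 : g = 3
    · obtain ⟨hx, hy, hA⟩ := h4 hg3
      have hB := hAB hD hA
      have h5 := hgcd A B hg1 hA hB
      have h6 := hgcd y (3 * x ^ 2 + A) hg2 hy (dvd_add ((dvd_pow hx (by norm_num)).mul_left _) hA)
      rw [hg3, show p ^ 3 = p * p * p by ring]
      exact mul_dvd_mul (mul_dvd_mul hDr h5) h6
    · have hg2' : g = 2 := by omega
      rw [hg2', sq]
      by_cases hA : (p : ℤ) ∣ A
      · have hB := hAB hD hA
        exact (mul_dvd_mul hDr (hgcd A B hg1 hA hB)).mul_right _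
      · by_cases hs : (p : ℤ) ∣ 2 * A * x + 3 * B
        · obtain ⟨hy, h3A⟩ := singular_dvd hp hp5 hE hD hA hs
          have h6 := hgcd y (3 * x ^ 2 + A) hg2 hy h3A
          rw [mul_right_comm]
          exact (mul_dvd_mul hDr h6).mul_right _
        · -- the nonsingular multiplicative case: the exponent is the parity
          exfalso
          have hz0 : z ≠ 0 := by
            rintro rfl
            apply hΔ
            have : 4096 * (4 * A ^ 3 + 27 * B ^ 2) = 0 := by linarith [hz]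
            linarith
          obtain ⟨k, hk, hk2⟩ : ∃ k : ℕ, (p : ℤ) ^ k ∣ z ∧ ¬ (p : ℤ) ^ (k + 1) ∣ z := by
            have hfin : FiniteMultiplicity (p : ℤ) z :=
              Int.finiteMultiplicity_iff.2 ⟨by simpa using hp.one_lt.ne', hz0⟩
            exact ⟨multiplicity (p : ℤ) z, pow_multiplicity_dvd _ _,
              hfin.not_pow_dvd_of_multiplicity_lt (by omega)⟩
          -- `p ^ (2 k + 2) ∣ D`
          obtain ⟨z1, rfl⟩ := hk
          have hpd : (p : ℤ) ^ 2 ∣ discr K := by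
            rw [← Int.dvd_natAbs, h1, hg2']
            push_cast
            exact dvd_mul_right _ _
          have hm : ((p : ℤ) ^ (k + 1)) ^ 2 ∣ 4 * A ^ 3 + 27 * B ^ 2 := by
            have h5 : ((p : ℤ) ^ (k + 1)) ^ 2 ∣ 2 ^ 12 * (4 * A ^ 3 + 27 * B ^ 2) := by
              have h6 : (2 : ℤ) ^ 12 * (4 * A ^ 3 + 27 * B ^ 2) =
                  -(((p : ℤ) ^ k * z1) ^ 2 * discr K) := by
                rw [← hz]; ring
              rw [h6, dvd_neg]
              obtain ⟨w, hw⟩ := hpd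
              exact ⟨z1 ^ 2 * w, by rw [hw]; ring⟩
            have hcop : IsCoprime (((p : ℤ) ^ (k + 1)) ^ 2) ((2 : ℤ) ^ 12) := by
              refine IsCoprime.pow (IsCoprime.pow_left ?_)
              rw [Int.isCoprime_iff_gcd_eq_one, Int.gcd_comm]
              have h7 : Nat.Coprime 2 p := by
                rw [Nat.coprime_primes Nat.prime_two hp]
                omega
              exact h7
            exact hcop.dvd_of_dvd_mul_left h5
          have hc : IsCoprime ((p : ℤ) ^ (k + 1)) (2 * A * (2 * A * x + 3 * B)) := by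
            refine IsCoprime.pow_left ?_
            rw [Prime.coprime_iff_not_dvd hpZ]
            intro h
            rcases hpZ.dvd_or_dvd h with h | h
            · rcases hpZ.dvd_or_dvd h with h | h
              · exact n2 h
              · exact hA h
            · exact hs h
          have hp0 : (p : ℤ) ≠ 0 := hpZ.ne_zero
          obtain ⟨z2, hz2⟩ := Pool.Agent.LibRC21.discr_quart_eq K A B x y ((p : ℤ) ^ (k + 1)) hE
            (pow_ne_zero _ hp0) hm hc hirr hd θ hθ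
          rw [hz] at hz2
          have hdK : discr K ≠ 0 := discr_ne_zero K
          have h5 : ((p : ℤ) ^ k * z1) ^ 2 = ((p : ℤ) ^ (k + 1) * z2) ^ 2 := by
            apply mul_right_cancel₀ hdK
            rw [hz2]
            ring
          have h6 : ((p : ℤ) ^ (k + 1)) ∣ (p : ℤ) ^ k * z1 := by
            rw [← Int.pow_dvd_pow_iff (n := 2) (by norm_num), h5]
            exact pow_dvd_pow_of_dvd (dvd_mul_right _ _) 2
          exact hk2 h6

theorem discr_dvd (K : Type) [Field K] [NumberField K] (A B x y : ℤ)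
    (hΔ : 4 * A ^ 3 + 27 * B ^ 2 ≠ 0) (hE : y ^ 2 = x ^ 3 + A * x + B)
    (hirr : Irreducible ((SQ55.gq A x y).map (algebraMap ℤ ℚ)))
    (hd : Module.finrank ℚ K = 4) (θ : K) (hθ : aeval θ (SQ55.gq A x y) = 0) :
    (discr K).natAbs ∣ 2 ^ 11 * 3 ^ 7 *
      ((∏ q ∈ (4 * A ^ 3 + 27 * B ^ 2).natAbs.primeFactors, q) *
        (∏ q ∈ (Int.gcd A B).primeFactors, q) *
        (∏ q ∈ (Int.gcd y (3 * x ^ 2 + A)).primeFactors, q)) := by
  rw [Nat.dvd_iff_prime_pow_dvd_dvd]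
  intro p k hp hk
  have key : ∀ g u : ℕ, (discr K).natAbs = p ^ g * u → ¬ p ∣ u → p ^ k ∣ p ^ g := by
    intro g u h1 h2
    rw [h1] at hk
    have h3 : Nat.Coprime (p ^ k) u := Nat.Coprime.pow_left _ ((Nat.Prime.coprime_iff_not_dvd hp).2 h2)
    exact h3.dvd_of_dvd_mul_right hk
  rcases Nat.lt_or_ge p 5 with hp5 | hp5
  · have h23 : p = 2 ∨ p = 3 := by
      interval_cases p
      · exact absurd hp (by norm_num)
      · exact absurd hp (by norm_num)
      · exact Or.inl rfl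
      · exact Or.inr rfl
      · exact absurd hp (by norm_num)
    rcases h23 with rfl | rfl
    · obtain ⟨g, u, h1, h2, h3⟩ := quart_exponent_small K 2 3 hp (by norm_num) (by norm_num) hd
      refine (key g u h1 h2).trans ?_
      have : 2 ^ g ∣ 2 ^ 11 := pow_dvd_pow 2 (by omega)
      exact (this.mul_right _).mul_right _
    · obtain ⟨g, u, h1, h2, h3⟩ := quart_exponent_small K 3 2 hp (by norm_num) (by norm_num) hd
      refine (key g u h1 h2).trans ?_
      have : 3 ^ g ∣ 3 ^ 7 := pow_dvd_pow 3 (by omega)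
      exact (this.mul_left _).mul_right _
  · obtain ⟨g, u, h1, h2, h3⟩ := local_dvd K A B x y p hp hp5 hΔ hE hirr hd θ hθ
    exact ((key g u h1 h2).trans h3).mul_left _

end Pool.Agent.LibCF91
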