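import Pool.Agent.LibCF91.TB5
import Pool.Agent.LibRC21A.A9

/-!
[CF TB6] The bound with the conductor number.
-/

set_option autoImplicit false

open NumberField Polynomial

namespace Pool.Agent.LibCF91

open Pool.Agent.LibST91 SQ55 Pool.Agent.LibRC21

theorem conductor_bound (hX : MainX 4 9) : ∃ C : ℝ, 0 < C ∧ ∃ κ : ℕ, ∀ A B x y : ℤ,
    4 * A ^ 3 + 27 * B ^ 2 ≠ 0 → y ^ 2 = x ^ 3 + A * x + B →
    (Real.log (max |(x : ℝ)| |(y : ℝ)|) ≤ C * √|((4 * A ^ 3 + 27 * B ^ 2 : ℤ) : ℝ)| *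
      Real.log (2 + |(A : ℝ)| + |(B : ℝ)|) ^ κ) ∧
    (Real.log (max |(x : ℝ)| |(y : ℝ)|) ≤
      C * √(((∏ p ∈ (4 * A ^ 3 + 27 * B ^ 2).natAbs.primeFactors, p) *
        (∏ p ∈ (Int.gcd A B).primeFactors, p) *
        (∏ p ∈ (Int.gcd y (3 * x ^ 2 + A)).primeFactors, p) : ℕ) : ℝ) *
        Real.log (2 + |(A : ℝ)| + |(B : ℝ)|) ^ κ) ∧
    (∀ (K : Type) [Field K] [NumberField K] (t : K), IntermediateField.adjoin ℚ {t} = ⊤ →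
      t ^ 4 - 6 * x * t ^ 2 - 8 * y * t - 3 * x ^ 2 - 4 * A = 0 →
      Real.log (max |(x : ℝ)| |(y : ℝ)|) ≤ C * √|(discr K : ℝ)| *
        Real.log (2 + |(A : ℝ)| + |(B : ℝ)|) ^ κ) := by
  obtain ⟨C1, hC1, κ1, h1⟩ := weier_final hX
  obtain ⟨C2, hC2, κ2, h2⟩ := weier_key hX
  obtain ⟨C, hC⟩ : ∃ C, C = C1 + (√(2 ^ 11 * 3 ^ 7) * C2 + 60) := ⟨_, rfl⟩
  have hs0 : 0 ≤ √((2 : ℝ) ^ 11 * 3 ^ 7) := Real.sqrt_nonneg _
  have hCC : 0 ≤ √((2 : ℝ) ^ 11 * 3 ^ 7) * C2 := by positivity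
  refine ⟨C, by rw [hC]; positivity, κ1 + κ2 + 1, fun A B x y hΔ hE => ?_⟩
  obtain ⟨R, hR⟩ : ∃ R, R = 1 + |(A : ℝ)| + |(B : ℝ)| := ⟨_, rfl⟩
  obtain ⟨L, hL⟩ : ∃ L, L = Real.log (2 + |(A : ℝ)| + |(B : ℝ)|) := ⟨_, rfl⟩
  obtain ⟨hR2, hL1, hlogR, hd1, -⟩ := basic hR hL hΔ
  obtain ⟨g1, -, g3⟩ := h1 A B x y hΔ hE
  have hk := h2 A B x y hΔ hE
  rw [← hL] at g1 hk ⊢
  have hL0 : 0 ≤ L := by linarith
  have e1 : L ^ κ1 ≤ L ^ (κ1 + κ2 + 1) := pow_le_pow_right₀ hL1 (by omega)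
  have e2 : L ^ κ2 ≤ L ^ (κ1 + κ2 + 1) := pow_le_pow_right₀ hL1 (by omega)
  have e3 : L ≤ L ^ (κ1 + κ2 + 1) := by
    calc L = L ^ 1 := (pow_one L).symm
      _ ≤ L ^ (κ1 + κ2 + 1) := pow_le_pow_right₀ hL1 (by omega)
  have hCC1 : C1 ≤ C := by rw [hC]; linarith
  have hCpos : 0 ≤ C := by linarith
  refine ⟨?_, ?_, ?_⟩
  · refine g1.trans ?_
    have h0 : 0 ≤ C * √|((4 * A ^ 3 + 27 * B ^ 2 : ℤ) : ℝ)| := by positivity
    gcongr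
  · obtain ⟨N, hN⟩ : ∃ N : ℕ, N = (∏ p ∈ (4 * A ^ 3 + 27 * B ^ 2).natAbs.primeFactors, p) *
        (∏ p ∈ (Int.gcd A B).primeFactors, p) *
        (∏ p ∈ (Int.gcd y (3 * x ^ 2 + A)).primeFactors, p) := ⟨_, rfl⟩
    rw [← hN]
    have hN0 : N ≠ 0 := by
      rw [hN]
      refine mul_ne_zero (mul_ne_zero ?_ ?_) ?_ <;>
        exact Finset.prod_ne_zero_iff.2 fun p hp => (Nat.prime_of_mem_primeFactors hp).ne_zero
    have hN1 : (1 : ℝ) ≤ N := by exact_mod_cast Nat.one_le_iff_ne_zero.2 hN0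
    have hsN : 1 ≤ √(N : ℝ) := Real.one_le_sqrt.2 hN1
    rcases hk with h | ⟨K, iK, iN, hfr, hirr, ⟨θ, hθ⟩, h⟩
    · calc Real.log (max |(x : ℝ)| |(y : ℝ)|) ≤ 60 * L := h
        _ = 60 * 1 * L := by ring
        _ ≤ C * √(N : ℝ) * L ^ (κ1 + κ2 + 1) := by
          have : 60 ≤ C := by rw [hC]; linarith
          gcongr
    · have hdvd := discr_dvd K A B x y hΔ hE hirr hfr θ hθ
      rw [← hN] at hdvd
      have hle := Nat.le_of_dvd (by positivity) hdvd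
      have hle2 : |(discr K : ℝ)| ≤ 2 ^ 11 * 3 ^ 7 * (N : ℝ) := by
        have h5 : |(discr K : ℝ)| = ((discr K).natAbs : ℝ) := by
          rw [Nat.cast_natAbs]
          push_cast
          rfl
        rw [h5]
        exact_mod_cast hle
      have hsq : √|(discr K : ℝ)| ≤ √(2 ^ 11 * 3 ^ 7) * √(N : ℝ) := by
        rw [← Real.sqrt_mul (by positivity)]
        exact Real.sqrt_le_sqrt hle2
      calc Real.log (max |(x : ℝ)| |(y : ℝ)|) ≤ C2 * √|(discr K : ℝ)| * L ^ κ2 := h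
        _ ≤ C2 * (√(2 ^ 11 * 3 ^ 7) * √(N : ℝ)) * L ^ (κ1 + κ2 + 1) := by gcongr
        _ = (√(2 ^ 11 * 3 ^ 7) * C2) * √(N : ℝ) * L ^ (κ1 + κ2 + 1) := by ring
        _ ≤ C * √(N : ℝ) * L ^ (κ1 + κ2 + 1) := by
          have : √(2 ^ 11 * 3 ^ 7) * C2 ≤ C := by rw [hC]; linarith
          gcongr
  · intro K _ _ t ht ht0
    have := g3 K t ht ht0
    rw [← hL] at this
    refine this.trans ?_
    have h0 : 0 ≤ C * √|(discr K : ℝ)| := by positivity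
    gcongr

end Pool.Agent.LibCF91
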