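import Pool.Agent.LibCF91.TB6

/-!
[CF TB7] The conductor number divides `216 (4A³ + 27B²)`.
-/

set_option autoImplicit false

namespace Pool.Agent.LibCF91

theorem rad_fact (n p : ℕ) : (∏ q ∈ n.primeFactors, q).factorization p =
    if p ∈ n.primeFactors then 1 else 0 := by
  rw [Nat.factorization_prod fun q hq => (Nat.prime_of_mem_primeFactors hq).ne_zero,
    Finset.sum_apply']
  rw [Finset.sum_congr rfl fun q hq => by
    rw [(Nat.prime_of_mem_primeFactors hq).factorization, Finsupp.single_apply]]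
  rw [Finset.sum_ite_eq']

theorem number_dvd {A B x y : ℤ} (hΔ : 4 * A ^ 3 + 27 * B ^ 2 ≠ 0)
    (hE : y ^ 2 = x ^ 3 + A * x + B) :
    (∏ p ∈ (4 * A ^ 3 + 27 * B ^ 2).natAbs.primeFactors, p) *
      (∏ p ∈ (Int.gcd A B).primeFactors, p) *
      (∏ p ∈ (Int.gcd y (3 * x ^ 2 + A)).primeFactors, p) ∣
      216 * (4 * A ^ 3 + 27 * B ^ 2).natAbs := by
  obtain ⟨hg1, hg2⟩ := gcd_ne hΔ hE
  have hDn : (4 * A ^ 3 + 27 * B ^ 2).natAbs ≠ 0 := Int.natAbs_ne_zero.2 hΔ
  have hr : ∀ n : ℕ, (∏ q ∈ n.primeFactors, q) ≠ 0 := fun n =>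
    Finset.prod_ne_zero_iff.2 fun p hp => (Nat.prime_of_mem_primeFactors hp).ne_zero
  rw [← Nat.factorization_prime_le_iff_dvd (mul_ne_zero (mul_ne_zero (hr _) (hr _)) (hr _))
    (mul_ne_zero (by norm_num) hDn)]
  intro p hp
  rw [Nat.factorization_mul (mul_ne_zero (hr _) (hr _)) (hr _), Nat.factorization_mul (hr _) (hr _),
    Nat.factorization_mul (by norm_num) hDn, Finsupp.add_apply, Finsupp.add_apply,
    Finsupp.add_apply, rad_fact, rad_fact, rad_fact]
  have h3 : (if p ∈ (4 * A ^ 3 + 27 * B ^ 2).natAbs.primeFactors then 1 else 0) +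
      (if p ∈ (Int.gcd A B).primeFactors then 1 else 0) +
      (if p ∈ (Int.gcd y (3 * x ^ 2 + A)).primeFactors then 1 else 0) ≤ 3 := by
    split_ifs <;> omega
  have hpow : ∀ k : ℕ, (p : ℤ) ^ k ∣ 4 * A ^ 3 + 27 * B ^ 2 →
      k ≤ (4 * A ^ 3 + 27 * B ^ 2).natAbs.factorization p := by
    intro k hk
    rw [← Nat.Prime.pow_dvd_iff_le_factorization hp hDn]
    have := Int.natAbs_dvd_natAbs.2 hk
    rwa [Int.natAbs_pow, Int.natAbs_natCast] at this
  rcases Nat.lt_or_ge p 5 with hp5 | hp5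
  · have h23 : p = 2 ∨ p = 3 := by
      interval_cases p
      · exact absurd hp (by norm_num)
      · exact absurd hp (by norm_num)
      · exact Or.inl rfl
      · exact Or.inr rfl
      · exact absurd hp (by norm_num)
    have h4 : 3 ≤ (216 : ℕ).factorization p := by
      rw [← Nat.Prime.pow_dvd_iff_le_factorization hp (by norm_num)]
      rcases h23 with rfl | rfl <;> norm_num
    omega
  · have hpZ : Prime (p : ℤ) := Nat.prime_iff_prime_int.1 hp
    have n3 : ¬ (p : ℤ) ∣ 3 := by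
      intro h
      have h2 : p ∣ 3 := by exact_mod_cast h
      have := Nat.le_of_dvd (by norm_num) h2
      omega
    refine le_trans ?_ (Nat.le_add_left _ _)
    have hmem : ∀ a b : ℤ, p ∈ (Int.gcd a b).primeFactors → (p : ℤ) ∣ a ∧ (p : ℤ) ∣ b := by
      intro a b h
      have h1 : p ∣ Int.gcd a b := Nat.dvd_of_mem_primeFactors h
      have h2 : (p : ℤ) ∣ (Int.gcd a b : ℤ) := by exact_mod_cast h1
      exact ⟨h2.trans (Int.gcd_dvd_left ..), h2.trans (Int.gcd_dvd_right ..)⟩
    by_cases h1 : p ∈ (Int.gcd A B).primeFactors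
    · obtain ⟨hA, hB⟩ := hmem A B h1
      obtain ⟨A', rfl⟩ := hA
      obtain ⟨B', rfl⟩ := hB
      by_cases h2 : p ∈ (Int.gcd y (3 * x ^ 2 + p * A')).primeFactors
      · obtain ⟨hy, hd⟩ := hmem _ _ h2
        have hx : (p : ℤ) ∣ x := by
          have h5 := (dvd_add_left (dvd_mul_right (p : ℤ) A')).1 hd
          rcases hpZ.dvd_or_dvd h5 with h | h
          · exact absurd h n3
          · exact hpZ.dvd_of_dvd_pow h
        obtain ⟨x', rfl⟩ := hx
        obtain ⟨y', rfl⟩ := hy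
        have h6 := hpow 3 (by
          have hp0 : (p : ℤ) ≠ 0 := hpZ.ne_zero
          have h7 : B' = p * (y' ^ 2 - p * x' ^ 3 - A' * x') := by
            apply mul_left_cancel₀ hp0
            linear_combination -hE
          rw [h7]
          exact ⟨4 * A' ^ 3 + 27 * p * (y' ^ 2 - p * x' ^ 3 - A' * x') ^ 2, by ring⟩)
        exact h3.trans h6
      · have h6 := hpow 2 ⟨4 * p * A' ^ 3 + 27 * B' ^ 2, by ring⟩
        refine le_trans ?_ h6
        rw [if_neg h2]
        split_ifs <;> omega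
    · rw [if_neg h1]
      by_cases h2 : p ∈ (Int.gcd y (3 * x ^ 2 + A)).primeFactors
      · obtain ⟨hy, hd⟩ := hmem _ _ h2
        have h6 := hpow 2 (by
          have h7 : (p : ℤ) ^ 2 ∣ y ^ 2 := pow_dvd_pow_of_dvd hy 2
          have h8 : (p : ℤ) ^ 2 ∣ (3 * x ^ 2 + A) ^ 2 := pow_dvd_pow_of_dvd hd 2
          have h9 : 4 * A ^ 3 + 27 * B ^ 2 = (3 * x ^ 2 + A) ^ 2 * (4 * (3 * x ^ 2 + A) - 9 * x ^ 2) +
              y ^ 2 * (27 * y ^ 2 + 108 * x ^ 3 - 54 * (3 * x ^ 2 + A) * x) := by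
            have hB : B = y ^ 2 - x ^ 3 - A * x := by linarith
            rw [hB]
            ring
          rw [h9]
          exact dvd_add (h8.mul_right _) (h7.mul_right _))
        refine le_trans ?_ h6
        split_ifs <;> omega
      · rw [if_neg h2]
        by_cases h5 : p ∈ (4 * A ^ 3 + 27 * B ^ 2).natAbs.primeFactors
        · have h6 := hpow 1 (by
            rw [pow_one, ← Int.dvd_natAbs]
            exact_mod_cast Nat.dvd_of_mem_primeFactors h5)
          rw [if_pos h5]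
          omega
        · rw [if_neg h5]
          omega

end Pool.Agent.LibCF91
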